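import Mathlib

/-!
# A count for almost all points from the measures of sets, with the saving `exp (-c (log M)^(3/4))`
-/

set_option autoImplicit false

open MeasureTheory Filter Topology Finset

namespace Pool.Agent.V8H1.TR

lemma exp_beats {t z : ℝ} (ht : 0 < t) (hz : 0 ≤ z) : z ^ 2 ≤ 8 / t ^ 2 * Real.exp (t / 2 * z) := by
  have h1 := Real.quadratic_le_exp_of_nonneg (show 0 ≤ t / 2 * z by positivity)
  have h2 : (t / 2 * z) ^ 2 / 2 ≤ Real.exp (t / 2 * z) := by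
    have : 0 ≤ t / 2 * z := by positivity
    linarith
  have h3 : z ^ 2 = 8 / t ^ 2 * ((t / 2 * z) ^ 2 / 2) := by
    field_simp
    ring
  rw [h3]
  exact mul_le_mul_of_nonneg_left h2 (by positivity)

lemma summable34 {t : ℝ} (ht : 0 < t) : Summable fun n : ℕ => Real.exp (-(t * (n : ℝ) ^ (3 / 4 : ℝ))) := by
  rw [← summable_nat_add_iff 1]
  have h2 : Summable fun n : ℕ => 8 / t ^ 2 * (1 / (((n + 1 : ℕ) : ℝ)) ^ (3 / 2 : ℝ)) :=
    ((summable_nat_add_iff 1).2 (Real.summable_one_div_nat_rpow.2 (by norm_num))).mul_left _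
  refine Summable.of_nonneg_of_le (fun n => (Real.exp_pos _).le) (fun n => ?_) h2
  have hn0 : (0 : ℝ) < ((n + 1 : ℕ) : ℝ) := by positivity
  set z : ℝ := ((n + 1 : ℕ) : ℝ) ^ (3 / 4 : ℝ) with hz
  have hz0 : 0 < z := by positivity
  have e2 := exp_beats ht hz0.le
  have e3 : Real.exp (t / 2 * z) ≤ Real.exp (t * z) := Real.exp_le_exp.2 (by nlinarith)
  have e4 : z ^ 2 = ((n + 1 : ℕ) : ℝ) ^ (3 / 2 : ℝ) := by
    rw [hz, ← Real.rpow_natCast, ← Real.rpow_mul hn0.le]
    norm_num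
  rw [← e4, Real.exp_neg, ← one_div, ← mul_one_div, div_mul_div_comm, one_mul, div_le_iff₀ (Real.exp_pos _),
    div_mul_eq_mul_div, le_div_iff₀ (by positivity)]
  have e5 : 0 < t ^ 2 := by positivity
  have e6 : z ^ 2 * t ^ 2 ≤ 8 * Real.exp (t / 2 * z) := by
    calc z ^ 2 * t ^ 2 ≤ (8 / t ^ 2 * Real.exp (t / 2 * z)) * t ^ 2 := mul_le_mul_of_nonneg_right e2 e5.le
      _ = 8 * Real.exp (t / 2 * z) := by field_simp
  linarith

lemma le34 {L : ℝ} (hL : 0 ≤ L) : L ^ (3 / 4 : ℝ) ≤ L + 1 := by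
  rcases le_or_gt L 1 with h | h
  · have := Real.rpow_le_one hL h (by norm_num : (0 : ℝ) ≤ 3 / 4)
    linarith
  · calc L ^ (3 / 4 : ℝ) ≤ L ^ (1 : ℝ) := Real.rpow_le_rpow_of_exponent_le h.le (by norm_num)
      _ = L := Real.rpow_one _
      _ ≤ L + 1 := by linarith

/-- `M exp (-c (log M)^(3/4))` is bounded below -/
lemma low34 {c : ℝ} (hc0 : 0 ≤ c) (hc : c ≤ 1) {M : ℕ} (hM : 1 ≤ M) :
    1 / 3 ≤ (M : ℝ) * Real.exp (-(c * Real.log M ^ (3 / 4 : ℝ))) := by
  have hM1 : (1 : ℝ) ≤ M := by exact_mod_cast hM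
  have hM0 : (0 : ℝ) < M := by linarith
  have hl : 0 ≤ Real.log M := Real.log_nonneg hM1
  have e1 := le34 hl
  have e0 : 0 ≤ Real.log M ^ (3 / 4 : ℝ) := by positivity
  have e3 : (M : ℝ) = Real.exp (Real.log M) := (Real.exp_log hM0).symm
  have e2 : Real.exp (-1) ≤ (M : ℝ) * Real.exp (-(c * Real.log M ^ (3 / 4 : ℝ))) := by
    calc Real.exp (-1) ≤ Real.exp (Real.log M + -(c * Real.log M ^ (3 / 4 : ℝ))) := by
          apply Real.exp_le_exp.2
          nlinarith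
      _ = (M : ℝ) * Real.exp (-(c * Real.log M ^ (3 / 4 : ℝ))) := by rw [Real.exp_add, ← e3]
  have e4 : (1 : ℝ) / 3 ≤ Real.exp (-1) := by
    rw [Real.exp_neg, ← one_div]
    apply one_div_le_one_div_of_le (Real.exp_pos _)
    have := Real.exp_one_lt_d9
    linarith
  linarith

open Classical in
/-- the lemma of Borel and Cantelli for counts -/
theorem markov_count {Ω : Type*} [MeasurableSpace Ω] (μ : Measure Ω) (E : ℕ → Set Ω)
    (hE : ∀ m, MeasurableSet (E m)) {B c : ℝ} (hB : 0 ≤ B) (hc : 0 < c) (hc2 : c ≤ 2)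
    (h : ∀ j : ℕ, ∑ m ∈ range (2 ^ j + 1), μ (E m) ≤
      ENNReal.ofReal (B * (2 ^ j * Real.exp (-(c * (j : ℝ) ^ (3 / 4 : ℝ)))))) :
    ∀ᵐ ω ∂μ, ∃ K : ℝ, 0 ≤ K ∧ ∀ M : ℕ, 1 ≤ M → (((range (M + 1)).filter (fun m => ω ∈ E m)).card : ℝ) ≤
      K * (M * Real.exp (-(c / 2 * Real.log M ^ (3 / 4 : ℝ)))) := by
  set F : ℕ → Ω → ENNReal := fun j ω => ∑ m ∈ range (2 ^ j + 1), (E m).indicator (fun _ => 1) ω with hF
  set T : ℕ → ℝ := fun j => 2 ^ j * Real.exp (-(c / 2 * (j : ℝ) ^ (3 / 4 : ℝ))) with hT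
  have hT0 : ∀ j, 0 < T j := fun j => by positivity
  have hFm : ∀ j, Measurable (F j) := by
    intro j
    exact Finset.measurable_sum _ fun m _ => (measurable_const.indicator (hE m))
  have hint : ∀ j, ∫⁻ ω, F j ω ∂μ = ∑ m ∈ range (2 ^ j + 1), μ (E m) := by
    intro j
    rw [hF]
    simp only
    rw [lintegral_finset_sum _ (fun m _ => measurable_const.indicator (hE m))]
    refine Finset.sum_congr rfl fun m _ => ?_
    rw [lintegral_indicator (hE m), lintegral_one, Measure.restrict_apply MeasurableSet.univ, Set.univ_inter]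
  have hmark : ∀ j, μ {ω | ENNReal.ofReal (T j) ≤ F j ω} ≤
      ENNReal.ofReal (B * Real.exp (-(c / 2 * (j : ℝ) ^ (3 / 4 : ℝ)))) := by
    intro j
    have h1 := meas_ge_le_lintegral_div (μ := μ) (hFm j).aemeasurable
      (ENNReal.ofReal_pos.2 (hT0 j)).ne' ENNReal.ofReal_ne_top
    refine h1.trans ?_
    rw [hint j]
    refine (ENNReal.div_le_div_right (h j) _).trans (le_of_eq ?_)
    rw [← ENNReal.ofReal_div_of_pos (hT0 j)]
    congr 1
    rw [div_eq_iff (hT0 j).ne', hT]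
    have e : Real.exp (-(c * (j : ℝ) ^ (3 / 4 : ℝ))) = Real.exp (-(c / 2 * (j : ℝ) ^ (3 / 4 : ℝ))) *
        Real.exp (-(c / 2 * (j : ℝ) ^ (3 / 4 : ℝ))) := by
      rw [← Real.exp_add]
      congr 1
      ring
    simp only
    rw [e]
    ring
  have hsum : ∑' j, μ {ω | ENNReal.ofReal (T j) ≤ F j ω} ≠ ⊤ := by
    refine ne_top_of_le_ne_top ?_ (ENNReal.tsum_le_tsum hmark)
    have h1 : Summable fun j : ℕ => B * Real.exp (-(c / 2 * (j : ℝ) ^ (3 / 4 : ℝ))) :=
      (summable34 (by positivity)).mul_left B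
    exact h1.tsum_ofReal_ne_top
  have hae := ae_eventually_notMem hsum
  filter_upwards [hae] with ω hω
  obtain ⟨j₀, hj₀⟩ := eventually_atTop.1 hω
  have hcount : ∀ j, F j ω = (((range (2 ^ j + 1)).filter (fun m => ω ∈ E m)).card : ENNReal) := by
    intro j
    rw [hF]
    simp only [Set.indicator_apply]
    rw [Finset.sum_ite, Finset.sum_const_zero, add_zero, Finset.sum_const, nsmul_eq_mul, mul_one]
  refine ⟨max 2 (3 * (2 ^ j₀ + 1)), le_max_of_le_left (by norm_num), fun M hM => ?_⟩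
  have hM1 : (1 : ℝ) ≤ M := by exact_mod_cast hM
  have hM0 : (0 : ℝ) < M := by linarith
  have hpos : 0 < (M : ℝ) * Real.exp (-(c / 2 * Real.log M ^ (3 / 4 : ℝ))) := by positivity
  rcases lt_or_ge M (2 ^ j₀) with hlt | hge
  · have h1 : ((range (M + 1)).filter (fun m => ω ∈ E m)).card ≤ M + 1 := by
      refine (card_filter_le _ _).trans ?_
      rw [card_range]
    have h2 : (((range (M + 1)).filter (fun m => ω ∈ E m)).card : ℝ) ≤ (2 ^ j₀ + 1 : ℝ) := by
      have h3 : ((range (M + 1)).filter (fun m => ω ∈ E m)).card ≤ 2 ^ j₀ + 1 := by omega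
      exact_mod_cast h3
    have h4 := low34 (c := c / 2) (by positivity) (by linarith) hM
    have h5 : (0 : ℝ) ≤ 3 * (2 ^ j₀ + 1) := by positivity
    calc (((range (M + 1)).filter (fun m => ω ∈ E m)).card : ℝ) ≤ (2 ^ j₀ + 1 : ℝ) := h2
      _ = (3 * (2 ^ j₀ + 1)) * (1 / 3) := by ring
      _ ≤ (3 * (2 ^ j₀ + 1)) * (M * Real.exp (-(c / 2 * Real.log M ^ (3 / 4 : ℝ)))) :=
          mul_le_mul_of_nonneg_left h4 h5
      _ ≤ _ := mul_le_mul_of_nonneg_right (le_max_right _ _) hpos.le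
  · set j : ℕ := Nat.clog 2 M with hj
    have hj1 : M ≤ 2 ^ j := Nat.le_pow_clog (by norm_num) M
    have hj2 : j₀ ≤ j := by
      have h1 : (2 : ℕ) ^ j₀ ≤ 2 ^ j := hge.trans hj1
      exact (Nat.pow_le_pow_iff_right (by norm_num)).1 h1
    have hj3 : 2 ^ j ≤ 2 * M := by
      rcases Nat.eq_zero_or_pos j with h0 | h0
      · rw [h0, pow_zero]
        omega
      · have hM2 : 1 < M := by
          by_contra hcon
          have : M = 1 := by omega
          rw [hj, this, Nat.clog_one_right] at h0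
          exact lt_irrefl _ h0
        have h1 := Nat.pow_pred_clog_lt_self (b := 2) (by norm_num) hM2
        rw [← hj] at h1
        have h2 : 2 ^ j = 2 * 2 ^ (j - 1) := by
          rw [← pow_succ']
          congr 1
          omega
        rw [h2]
        have h3 : j.pred = j - 1 := rfl
        rw [h3] at h1
        omega
    have h1 := hj₀ j hj2
    have h2 : F j ω < ENNReal.ofReal (T j) := by
      by_contra hcon
      exact h1 (not_lt.1 hcon)
    rw [hcount j] at h2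
    have h3 : (((range (2 ^ j + 1)).filter (fun m => ω ∈ E m)).card : ℝ) < T j := by
      rw [← ENNReal.ofReal_natCast] at h2
      exact (ENNReal.ofReal_lt_ofReal_iff (hT0 j)).1 h2
    have h4 : ((range (M + 1)).filter (fun m => ω ∈ E m)).card ≤
        ((range (2 ^ j + 1)).filter (fun m => ω ∈ E m)).card :=
      card_le_card (filter_subset_filter _ (range_subset_range.2 (by omega)))
    have h5 : (((range (M + 1)).filter (fun m => ω ∈ E m)).card : ℝ) ≤
        (((range (2 ^ j + 1)).filter (fun m => ω ∈ E m)).card : ℝ) := by exact_mod_cast h4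
    have hlog : Real.log M ≤ j := by
      have e1 : (M : ℝ) ≤ 2 ^ j := by exact_mod_cast hj1
      have e2 := Real.log_le_log hM0 e1
      rw [Real.log_pow] at e2
      have e3 := Real.log_two_lt_d9
      have e4 : (0 : ℝ) ≤ j := Nat.cast_nonneg j
      nlinarith
    have h6 : T j ≤ 2 * (M * Real.exp (-(c / 2 * Real.log M ^ (3 / 4 : ℝ)))) := by
      have e1 : ((2 : ℝ)) ^ j ≤ 2 * M := by exact_mod_cast hj3
      have e2 : Real.exp (-(c / 2 * (j : ℝ) ^ (3 / 4 : ℝ))) ≤ Real.exp (-(c / 2 * Real.log M ^ (3 / 4 : ℝ))) := by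
        apply Real.exp_le_exp.2
        have e3 : Real.log M ^ (3 / 4 : ℝ) ≤ (j : ℝ) ^ (3 / 4 : ℝ) :=
          Real.rpow_le_rpow (Real.log_nonneg hM1) hlog (by norm_num)
        nlinarith
      calc T j = 2 ^ j * Real.exp (-(c / 2 * (j : ℝ) ^ (3 / 4 : ℝ))) := rfl
        _ ≤ (2 * M) * Real.exp (-(c / 2 * Real.log M ^ (3 / 4 : ℝ))) :=
            mul_le_mul e1 e2 (Real.exp_pos _).le (by positivity)
        _ = _ := by ring
    calc _ ≤ T j := h5.trans h3.le
      _ ≤ 2 * (M * Real.exp (-(c / 2 * Real.log M ^ (3 / 4 : ℝ)))) := h6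
      _ ≤ _ := mul_le_mul_of_nonneg_right (le_max_left _ _) hpos.le

/-- sums of `exp (-c (log m)^(3/4))` -/
theorem sum34 {c : ℝ} (hc : 0 < c) (hc1 : c ≤ 1) (j : ℕ) :
    ∑ m ∈ range (2 ^ j + 1), Real.exp (-(c * Real.log m ^ (3 / 4 : ℝ))) ≤
      8 * (2 ^ j * Real.exp (-(c / 4 * (j : ℝ) ^ (3 / 4 : ℝ)))) := by
  classical
  have hle1 : ∀ m : ℕ, Real.exp (-(c * Real.log m ^ (3 / 4 : ℝ))) ≤ 1 := by
    intro m
    rw [Real.exp_le_one_iff]
    have : 0 ≤ Real.log m ^ (3 / 4 : ℝ) := Real.rpow_nonneg (Real.log_natCast_nonneg m) _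
    nlinarith
  have hj0 : (0 : ℝ) ≤ j := Nat.cast_nonneg j
  have hj34 : 0 ≤ (j : ℝ) ^ (3 / 4 : ℝ) := by positivity
  have hl2 := Real.log_two_gt_d9
  have hbig : ∀ m : ℕ, 2 ^ j ≤ m * m → Real.exp (-(c * Real.log m ^ (3 / 4 : ℝ))) ≤
      Real.exp (-(c / 4 * (j : ℝ) ^ (3 / 4 : ℝ))) := by
    intro m hm
    have hm0 : 0 < m := by
      rcases Nat.eq_zero_or_pos m with h0 | h0
      · rw [h0] at hm
        have : 0 < 2 ^ j := by positivity
        omega
      · exact h0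
    have hm0' : (0 : ℝ) < m := by exact_mod_cast hm0
    have h1 : ((2 : ℝ)) ^ j ≤ m * m := by exact_mod_cast hm
    have h2 := Real.log_le_log (by positivity) h1
    rw [Real.log_pow, Real.log_mul hm0'.ne' hm0'.ne'] at h2
    have h3 : 1 / 4 * (j : ℝ) ≤ Real.log m := by nlinarith
    have h4 : 1 / 4 * (j : ℝ) ^ (3 / 4 : ℝ) ≤ Real.log m ^ (3 / 4 : ℝ) := by
      calc 1 / 4 * (j : ℝ) ^ (3 / 4 : ℝ) ≤ (1 / 4) ^ (3 / 4 : ℝ) * (j : ℝ) ^ (3 / 4 : ℝ) := by
            apply mul_le_mul_of_nonneg_right _ hj34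
            calc (1 / 4 : ℝ) = (1 / 4) ^ (1 : ℝ) := (Real.rpow_one _).symm
              _ ≤ (1 / 4) ^ (3 / 4 : ℝ) :=
                Real.rpow_le_rpow_of_exponent_ge (by norm_num) (by norm_num) (by norm_num)
        _ = (1 / 4 * (j : ℝ)) ^ (3 / 4 : ℝ) := (Real.mul_rpow (by norm_num) hj0).symm
        _ ≤ Real.log m ^ (3 / 4 : ℝ) := Real.rpow_le_rpow (by positivity) h3 (by norm_num)
    apply Real.exp_le_exp.2
    nlinarith
  set G : ℝ := 2 ^ j * Real.exp (-(c / 4 * (j : ℝ) ^ (3 / 4 : ℝ))) with hG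
  rw [← Finset.sum_filter_add_sum_filter_not (range (2 ^ j + 1)) (fun m => m * m < 2 ^ j)]
  have hA : ∑ m ∈ (range (2 ^ j + 1)).filter (fun m => m * m < 2 ^ j), Real.exp (-(c * Real.log m ^ (3 / 4 : ℝ))) ≤
      4 * G := by
    have h1 : ((range (2 ^ j + 1)).filter (fun m => m * m < 2 ^ j)).card ≤ Nat.sqrt (2 ^ j) + 1 := by
      have hsub : (range (2 ^ j + 1)).filter (fun m => m * m < 2 ^ j) ⊆ range (Nat.sqrt (2 ^ j) + 1) := by
        intro m hm
        rw [mem_filter] at hm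
        rw [mem_range, Nat.lt_succ_iff]
        exact Nat.le_sqrt.2 hm.2.le
      have := card_le_card hsub
      rwa [card_range] at this
    have h2 : ((Nat.sqrt (2 ^ j) + 1 : ℕ) : ℝ) ≤ 2 * Real.exp (j * Real.log 2 / 2) := by
      have e1 : ((Nat.sqrt (2 ^ j) : ℕ) : ℝ) * (Nat.sqrt (2 ^ j) : ℕ) ≤ 2 ^ j := by exact_mod_cast Nat.sqrt_le (2 ^ j)
      have e2 : Real.exp (j * Real.log 2 / 2) * Real.exp (j * Real.log 2 / 2) = 2 ^ j := by
        rw [← Real.exp_add, ← Real.exp_log (show (0 : ℝ) < 2 ^ j by positivity), Real.log_pow]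
        congr 1
        ring
      have e3 : ((Nat.sqrt (2 ^ j) : ℕ) : ℝ) ≤ Real.exp (j * Real.log 2 / 2) := by
        by_contra hcon
        push Not at hcon
        have := Real.exp_pos (j * Real.log 2 / 2)
        nlinarith
      have e4 : 1 ≤ Real.exp (j * Real.log 2 / 2) := Real.one_le_exp (by positivity)
      push_cast
      linarith
    have h3 : Real.exp (j * Real.log 2 / 2) ≤ 2 * G := by
      have e1 : (2 : ℝ) ^ j = Real.exp (j * Real.log 2) := by
        rw [← Real.log_pow, Real.exp_log (by positivity)]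
      have e2 : Real.exp (1 / 4) ≤ 2 := by
        have := Real.exp_one_lt_d9
        calc Real.exp (1 / 4) ≤ Real.exp (Real.log 2) := Real.exp_le_exp.2 (by linarith)
          _ = 2 := Real.exp_log (by norm_num)
      have e3 : Real.exp (j * Real.log 2 / 2) ≤ Real.exp (1 / 4) * G := by
        rw [hG, e1, ← Real.exp_add, ← Real.exp_add]
        apply Real.exp_le_exp.2
        have e4 := le34 hj0
        nlinarith
      have hG0 : 0 ≤ G := by positivity
      exact e3.trans (mul_le_mul_of_nonneg_right e2 hG0)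
    calc ∑ m ∈ (range (2 ^ j + 1)).filter (fun m => m * m < 2 ^ j), Real.exp (-(c * Real.log m ^ (3 / 4 : ℝ)))
        ≤ ∑ _m ∈ (range (2 ^ j + 1)).filter (fun m => m * m < 2 ^ j), (1 : ℝ) :=
          Finset.sum_le_sum fun m _ => hle1 m
      _ = (((range (2 ^ j + 1)).filter (fun m => m * m < 2 ^ j)).card : ℝ) := by simp
      _ ≤ ((Nat.sqrt (2 ^ j) + 1 : ℕ) : ℝ) := by exact_mod_cast h1
      _ ≤ 2 * Real.exp (j * Real.log 2 / 2) := h2
      _ ≤ 2 * (2 * G) := mul_le_mul_of_nonneg_left h3 (by norm_num)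
      _ = 4 * G := by ring
  have hB : ∑ m ∈ (range (2 ^ j + 1)).filter (fun m => ¬ m * m < 2 ^ j), Real.exp (-(c * Real.log m ^ (3 / 4 : ℝ))) ≤
      2 * G := by
    have h1 : (((range (2 ^ j + 1)).filter (fun m => ¬ m * m < 2 ^ j)).card : ℝ) ≤ 2 * 2 ^ j := by
      have e1 : ((range (2 ^ j + 1)).filter (fun m => ¬ m * m < 2 ^ j)).card ≤ 2 ^ j + 1 := by
        refine (card_filter_le _ _).trans ?_
        rw [card_range]
      have e2 : (((range (2 ^ j + 1)).filter (fun m => ¬ m * m < 2 ^ j)).card : ℝ) ≤ 2 ^ j + 1 := by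
        exact_mod_cast e1
      have e3 : (1 : ℝ) ≤ 2 ^ j := one_le_pow₀ (by norm_num)
      linarith
    calc ∑ m ∈ (range (2 ^ j + 1)).filter (fun m => ¬ m * m < 2 ^ j), Real.exp (-(c * Real.log m ^ (3 / 4 : ℝ)))
        ≤ ∑ _m ∈ (range (2 ^ j + 1)).filter (fun m => ¬ m * m < 2 ^ j), Real.exp (-(c / 4 * (j : ℝ) ^ (3 / 4 : ℝ))) :=
          Finset.sum_le_sum fun m hm => hbig m (not_lt.1 (mem_filter.1 hm).2)
      _ = (((range (2 ^ j + 1)).filter (fun m => ¬ m * m < 2 ^ j)).card : ℝ) *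
          Real.exp (-(c / 4 * (j : ℝ) ^ (3 / 4 : ℝ))) := by rw [sum_const, nsmul_eq_mul]
      _ ≤ (2 * 2 ^ j) * Real.exp (-(c / 4 * (j : ℝ) ^ (3 / 4 : ℝ))) :=
          mul_le_mul_of_nonneg_right h1 (Real.exp_pos _).le
      _ = 2 * G := by rw [hG]; ring
  have hG0 : 0 ≤ G := by positivity
  linarith

end Pool.Agent.V8H1.TR
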