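import Pool.Agent.N251.LF.AeExp
import Pool.Agent.V8H1.TR.Markov

/-!
# Generic linear forms and sets with the saving `exp (-c (log X)^(3/4))`
-/

set_option autoImplicit false

open MeasureTheory Filter Topology Finset

namespace Pool.Agent.V8H1.TR

lemma dom34 {c u : ℝ} (hc : 0 ≤ c) (hu : (2 + c) ^ 4 ≤ u) : Real.log 2 + c * u ^ (3 / 4 : ℝ) ≤ u := by
  have hl1 : Real.log 2 ≤ 1 := by have := Real.log_two_lt_d9; linarith
  have h1 : (1 : ℝ) ≤ (2 + c) ^ 4 := one_le_pow₀ (by linarith)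
  have hu0 : 0 < u := by linarith
  have h2 : 2 + c ≤ u ^ (1 / 4 : ℝ) := by
    calc 2 + c = ((2 + c) ^ 4) ^ (1 / 4 : ℝ) := by
          rw [← Real.rpow_natCast, ← Real.rpow_mul (by linarith)]
          norm_num
      _ ≤ u ^ (1 / 4 : ℝ) := Real.rpow_le_rpow (by positivity) hu (by norm_num)
  have h3 : u ^ (3 / 4 : ℝ) * u ^ (1 / 4 : ℝ) = u := by
    rw [← Real.rpow_add hu0]
    norm_num
  have h4 : 1 ≤ u ^ (3 / 4 : ℝ) := Real.one_le_rpow (by linarith) (by norm_num)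
  nlinarith

lemma slab_meas {k : ℕ} (R : ℝ) (v : Fin k → ℝ) (y w : ℝ) :
    MeasurableSet {α : Fin 1 × Fin k → ℝ | (∀ p, |α p| ≤ R) ∧ ∀ l : Fin 1, |∑ j, α (l, j) * v j - y| ≤ w} := by
  have e : {α : Fin 1 × Fin k → ℝ | (∀ p, |α p| ≤ R) ∧ ∀ l : Fin 1, |∑ j, α (l, j) * v j - y| ≤ w} =
      (⋂ p, {α | |α p| ≤ R}) ∩ ⋂ l : Fin 1, {α | |∑ j, α (l, j) * v j - y| ≤ w} := by
    ext α
    simp
  rw [e]
  refine (MeasurableSet.iInter fun p => measurableSet_le (measurable_pi_apply p).abs measurable_const).inter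
    (MeasurableSet.iInter fun l => measurableSet_le ?_ measurable_const)
  refine Measurable.abs (Measurable.sub_const ?_ _)
  exact Finset.measurable_sum _ fun j _ => (measurable_pi_apply (X := fun _ : Fin 1 × Fin k => ℝ) (l, j)).mul_const _

/-- the volumes of the slabs do not depend on the largest coordinate -/
lemma slab_vol {k : ℕ} (R : ℝ) : ∃ K : ℝ, 0 ≤ K ∧ ∀ (v : Fin k → ℝ) (y w : ℝ), 0 ≤ w → 0 < ‖v‖ →
    volume {α : Fin 1 × Fin k → ℝ | (∀ p, |α p| ≤ R) ∧ ∀ l : Fin 1, |∑ j, α (l, j) * v j - y| ≤ w} ≤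
      ENNReal.ofReal (K * (w / ‖v‖)) := by
  choose K hK hvol using fun j0 : Fin k => Pool.Agent.N251.LF.vol_slabs (m := 1) j0 R
  refine ⟨∑ j, (K j).toReal * 2, Finset.sum_nonneg fun j _ => by positivity, fun v y w hw hv => ?_⟩
  have hk : Nonempty (Fin k) := by
    by_contra hcon
    rw [not_nonempty_iff] at hcon
    rw [Subsingleton.elim v 0, norm_zero] at hv
    exact lt_irrefl _ hv
  obtain ⟨j0, hj0⟩ := Finite.exists_max fun j => |v j|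
  have hn : ‖v‖ = |v j0| := Pool.Agent.N251.LF.norm_eq' hj0
  rw [hn] at hv ⊢
  have h1 := hvol j0 v (fun _ => y) w (abs_pos.1 hv)
  rw [pow_one] at h1
  refine h1.trans ?_
  rw [← ENNReal.ofReal_toReal (hK j0), ← ENNReal.ofReal_mul ENNReal.toReal_nonneg]
  apply ENNReal.ofReal_le_ofReal
  have h2 : (K j0).toReal * 2 ≤ ∑ j, (K j).toReal * 2 :=
    Finset.single_le_sum (f := fun j => (K j).toReal * 2) (fun j _ => by positivity) (Finset.mem_univ j0)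
  calc (K j0).toReal * (2 * w / |v j0|) = ((K j0).toReal * 2) * (w / |v j0|) := by ring
    _ ≤ _ := mul_le_mul_of_nonneg_right h2 (by positivity)

/-- the matrices in a box for which the value of the form is near an element of the set `S` -/
lemma box34 {S : Set ℕ} {C c₁ : ℝ} (hC : 0 ≤ C) (hc₁ : 0 < c₁)
    (hS : ∀ X : ℝ, 1 ≤ X → {n : ℕ | n ∈ S ∧ (n : ℝ) ≤ X}.Finite ∧
      ({n : ℕ | n ∈ S ∧ (n : ℝ) ≤ X}.ncard : ℝ) ≤ (C * Real.exp (-(c₁ * Real.log X ^ (3 / 4 : ℝ)))) * X)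
    {k : ℕ} (R : ℕ) : ∃ B : ℝ, 0 ≤ B ∧ ∀ v : Fin k → ℝ, (2 + c₁ / 2) ^ 4 ≤ Real.log (1 + ‖v‖) →
      ∃ E : Set (Fin 1 × Fin k → ℝ), MeasurableSet E ∧
        volume E ≤ ENNReal.ofReal (B * Real.exp (-(c₁ / 2 * Real.log (1 + ‖v‖) ^ (3 / 4 : ℝ)))) ∧
        ∀ α : Fin 1 × Fin k → ℝ, (∀ p, |α p| ≤ R) → (∃ n ∈ S, |(n : ℝ) - ∑ j, α (0, j) * v j| ≤
          Real.exp (c₁ / 2 * Real.log (1 + ‖v‖) ^ (3 / 4 : ℝ))) → α ∈ E := by
  classical
  obtain ⟨K₀, hK₀, hvol⟩ := slab_vol (k := k) (R : ℝ)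
  obtain ⟨b, hb⟩ : ∃ b : ℝ, b = (k : ℝ) * R + 1 := ⟨_, rfl⟩
  have hb1 : 1 ≤ b := by
    rw [hb]
    have : (0 : ℝ) ≤ (k : ℝ) * R := by positivity
    linarith
  refine ⟨C * b * K₀ * 2, by positivity, fun v hvU => ?_⟩
  obtain ⟨u, hu⟩ : ∃ u : ℝ, u = Real.log (1 + ‖v‖) := ⟨_, rfl⟩
  have hu1 : Real.exp u = 1 + ‖v‖ := by
    rw [hu]
    exact Real.exp_log (by linarith [norm_nonneg v])
  have hu0 : 0 ≤ u := by
    rw [hu]
    exact Real.log_nonneg (by linarith [norm_nonneg v])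
  rw [← hu] at hvU ⊢
  obtain ⟨w, hw⟩ : ∃ w : ℝ, w = Real.exp (c₁ / 2 * u ^ (3 / 4 : ℝ)) := ⟨_, rfl⟩
  have hw0 : 0 < w := by rw [hw]; exact Real.exp_pos _
  rw [← hw]
  have h1 := dom34 (c := c₁ / 2) (u := u) (by positivity) hvU
  have h2 : 2 * w ≤ 1 + ‖v‖ := by
    rw [hw, ← hu1]
    calc 2 * Real.exp (c₁ / 2 * u ^ (3 / 4 : ℝ)) = Real.exp (Real.log 2 + c₁ / 2 * u ^ (3 / 4 : ℝ)) := by
          rw [Real.exp_add, Real.exp_log (by norm_num)]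
      _ ≤ _ := Real.exp_le_exp.2 h1
  have h3 : 1 ≤ w := by
    rw [hw]
    exact Real.one_le_exp (mul_nonneg (by positivity) (Real.rpow_nonneg hu0 _))
  have g1 : 1 ≤ ‖v‖ := by linarith
  have g2 : w ≤ ‖v‖ := by linarith
  have hvpos : 0 < ‖v‖ := by linarith
  have hbv : 1 ≤ b * (1 + ‖v‖) := by nlinarith
  obtain ⟨hfin, hcard⟩ := hS _ hbv
  refine ⟨⋃ n ∈ hfin.toFinset, {α : Fin 1 × Fin k → ℝ | (∀ p, |α p| ≤ (R : ℝ)) ∧
        ∀ l : Fin 1, |∑ j, α (l, j) * v j - (n : ℝ)| ≤ w}, Finset.measurableSet_biUnion _ fun n _ => slab_meas _ _ _ _,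
        ?_, ?_⟩
  · refine (measure_biUnion_finset_le _ _).trans ?_
    refine (Finset.sum_le_sum fun (n : ℕ) _ => hvol v (n : ℝ) w hw0.le hvpos).trans ?_
    rw [Finset.sum_const, nsmul_eq_mul, ← ENNReal.ofReal_natCast, ← ENNReal.ofReal_mul (Nat.cast_nonneg _)]
    apply ENNReal.ofReal_le_ofReal
    rw [Set.ncard_eq_toFinset_card _ hfin] at hcard
    have h2 : Real.exp (-(c₁ * Real.log (b * (1 + ‖v‖)) ^ (3 / 4 : ℝ))) ≤
        Real.exp (-(c₁ * u ^ (3 / 4 : ℝ))) := by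
      apply Real.exp_le_exp.2
      have : u ^ (3 / 4 : ℝ) ≤ Real.log (b * (1 + ‖v‖)) ^ (3 / 4 : ℝ) := by
        refine Real.rpow_le_rpow hu0 ?_ (by norm_num)
        rw [hu]
        exact Real.log_le_log (by linarith) (by nlinarith)
      nlinarith
    have h3 : Real.exp (-(c₁ * u ^ (3 / 4 : ℝ))) * w = Real.exp (-(c₁ / 2 * u ^ (3 / 4 : ℝ))) := by
      rw [hw, ← Real.exp_add]
      congr 1
      ring
    have h4 : ((hfin.toFinset.card : ℕ) : ℝ) ≤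
        (C * Real.exp (-(c₁ * u ^ (3 / 4 : ℝ)))) * (b * (2 * ‖v‖)) := by
      refine hcard.trans ?_
      have e1 : b * (1 + ‖v‖) ≤ b * (2 * ‖v‖) := by nlinarith
      exact mul_le_mul (mul_le_mul_of_nonneg_left h2 hC) e1 (by positivity) (by positivity)
    have h5 : 0 ≤ K₀ * (w / ‖v‖) := mul_nonneg hK₀ (div_nonneg hw0.le hvpos.le)
    calc ((hfin.toFinset.card : ℕ) : ℝ) * (K₀ * (w / ‖v‖))
        ≤ ((C * Real.exp (-(c₁ * u ^ (3 / 4 : ℝ)))) * (b * (2 * ‖v‖))) * (K₀ * (w / ‖v‖)) :=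
          mul_le_mul_of_nonneg_right h4 h5
      _ = (C * b * K₀ * 2) * (Real.exp (-(c₁ * u ^ (3 / 4 : ℝ))) * w) := by
          field_simp
      _ ≤ _ := by rw [h3]
  · rintro α hαR ⟨n, hnS, hn⟩
    have h3 : |∑ j, α (0, j) * v j| ≤ (k : ℝ) * R * ‖v‖ := by
      calc |∑ j, α (0, j) * v j| ≤ ∑ j, |α (0, j) * v j| := Finset.abs_sum_le_sum_abs _ _
        _ ≤ ∑ _j : Fin k, (R : ℝ) * ‖v‖ := by
            refine Finset.sum_le_sum fun j _ => ?_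
            rw [abs_mul]
            have := norm_le_pi_norm v j
            exact mul_le_mul (hαR (0, j)) this (abs_nonneg _) (Nat.cast_nonneg _)
        _ = (k : ℝ) * R * ‖v‖ := by
            rw [Finset.sum_const, Finset.card_univ, Fintype.card_fin, nsmul_eq_mul]
            ring
    have h4 : (n : ℝ) ≤ b * (1 + ‖v‖) := by
      have a1 := (abs_le.1 hn).2
      have a2 := (abs_le.1 h3).2
      have a3 : (n : ℝ) ≤ b * ‖v‖ := by
        rw [hb]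
        linarith
      linarith
    simp only [Set.mem_iUnion]
    refine ⟨n, (Set.Finite.mem_toFinset _).2 ⟨hnS, h4⟩, hαR, fun l => ?_⟩
    have : l = 0 := Subsingleton.elim _ _
    rw [this, abs_sub_comm]
    exact hn

/-- passing from boxes to everything -/
lemma of_box {k : ℕ} (Q : (Fin k → ℝ) → Prop)
    (h : ∀ R : ℕ, ∀ᵐ α : Fin 1 × Fin k → ℝ, (∀ p, |α p| ≤ R) → Q (fun j => α (0, j))) : ∀ᵐ α : Fin k → ℝ, Q α := by
  refine Pool.Agent.N251.LF.ae_row Q ?_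
  filter_upwards [ae_all_iff.2 h] with α hα
  obtain ⟨R, hR⟩ := exists_nat_ge (∑ p, |α p|)
  exact hα R fun p => (Finset.single_le_sum (f := fun p => |α p|) (fun p _ => abs_nonneg _) (Finset.mem_univ p)).trans hR

/-- **Generic linear forms in sparse families.** If a set `S` of natural numbers has at most `C X exp (-c₁ (log X)^(3/4))`
elements up to `X`, and the sums of `exp (-t (log (1 + ‖v i‖))^(3/4))` converge for `t > 0`, then for almost all `α` for all but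
finitely many `i` there is no element of `S` within `exp (c₁ / 2 (log (1 + ‖v i‖))^(3/4))` of `∑ α_j v_(i,j)`. -/
theorem sparse34 {S : Set ℕ} {C c₁ : ℝ} (hC : 0 ≤ C) (hc₁ : 0 < c₁)
    (hS : ∀ X : ℝ, 1 ≤ X → {n : ℕ | n ∈ S ∧ (n : ℝ) ≤ X}.Finite ∧
      ({n : ℕ | n ∈ S ∧ (n : ℝ) ≤ X}.ncard : ℝ) ≤ (C * Real.exp (-(c₁ * Real.log X ^ (3 / 4 : ℝ)))) * X)
    {k : ℕ} {ι : Type} (v : ι → Fin k → ℝ)
    (hv : ∀ t : ℝ, 0 < t → Summable fun i => Real.exp (-(t * Real.log (1 + ‖v i‖) ^ (3 / 4 : ℝ)))) :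
    ∀ᵐ α : Fin k → ℝ, {i | ∃ n ∈ S, |(n : ℝ) - ∑ j, α j * v i j| ≤
      Real.exp (c₁ / 2 * Real.log (1 + ‖v i‖) ^ (3 / 4 : ℝ))}.Finite := by
  classical
  have hcount : Countable ι := by
    have h1 := (hv 1 one_pos).countable_support
    have h2 : Function.support (fun i => Real.exp (-(1 * Real.log (1 + ‖v i‖) ^ (3 / 4 : ℝ)))) = Set.univ :=
      Set.eq_univ_of_forall fun i => (Real.exp_pos _).ne'
    rwa [h2, Set.countable_univ_iff] at h1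
  have hu0 : ∀ i, 0 ≤ Real.log (1 + ‖v i‖) := fun i => Real.log_nonneg (by linarith [norm_nonneg (v i)])
  have hnear : {i | Real.log (1 + ‖v i‖) < (2 + c₁ / 2) ^ 4}.Finite := by
    have h1 := (hv 1 one_pos).tendsto_cofinite_zero.eventually
      (gt_mem_nhds (Real.exp_pos (-(1 * ((2 + c₁ / 2) ^ 4) ^ (3 / 4 : ℝ)))))
    rw [Filter.eventually_cofinite] at h1
    refine h1.subset ?_
    intro i hi
    have hi' : Real.log (1 + ‖v i‖) < (2 + c₁ / 2) ^ 4 := hi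
    simp only [Set.mem_ofPred_eq, not_lt]
    apply Real.exp_le_exp.2
    have : Real.log (1 + ‖v i‖) ^ (3 / 4 : ℝ) ≤ ((2 + c₁ / 2) ^ 4) ^ (3 / 4 : ℝ) :=
      Real.rpow_le_rpow (hu0 i) hi'.le (by norm_num)
    linarith
  refine of_box _ fun R => ?_
  obtain ⟨B, hB, hE⟩ := box34 (k := k) hC hc₁ hS R
  choose! E hE1 hE2 hE3 using hE
  have htot : ∑' i, volume (if (2 + c₁ / 2) ^ 4 ≤ Real.log (1 + ‖v i‖) then E (v i) else ∅) ≠ ⊤ := by
    refine ne_top_of_le_ne_top ?_ (ENNReal.tsum_le_tsum (g := fun i =>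
      ENNReal.ofReal (B * Real.exp (-(c₁ / 2 * Real.log (1 + ‖v i‖) ^ (3 / 4 : ℝ))))) fun i => ?_)
    · exact ((hv (c₁ / 2) (by positivity)).mul_left B).tsum_ofReal_ne_top
    · by_cases h : (2 + c₁ / 2) ^ 4 ≤ Real.log (1 + ‖v i‖)
      · rw [if_pos h]
        exact hE2 _ h
      · rw [if_neg h, measure_empty]
        exact bot_le
  filter_upwards [ae_finite_setOfPred_mem htot] with α hα hαR
  refine (hα.union hnear).subset ?_
  intro i hi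
  by_cases h : (2 + c₁ / 2) ^ 4 ≤ Real.log (1 + ‖v i‖)
  · refine Or.inl ?_
    show α ∈ if (2 + c₁ / 2) ^ 4 ≤ Real.log (1 + ‖v i‖) then E (v i) else ∅
    rw [if_pos h]
    exact hE3 _ h α hαR hi
  · exact Or.inr (not_le.1 h)

/-- **Counts for generic linear forms.** If a set `S` of natural numbers has at most `C X exp (-c₁ (log X)^(3/4))` elements up to
`X`, and `‖v m‖ ≥ s m ^ a`, then for almost all `α` for all `m ≤ M` but `K M exp (-c (log M)^(3/4))` there is no element of `S`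
within `exp (c₁ / 2 (log (1 + ‖v m‖))^(3/4))` of `∑ α_j v_(m,j)`. -/
theorem count34 {S : Set ℕ} {C c₁ : ℝ} (hC : 0 ≤ C) (hc₁ : 0 < c₁)
    (hS : ∀ X : ℝ, 1 ≤ X → {n : ℕ | n ∈ S ∧ (n : ℝ) ≤ X}.Finite ∧
      ({n : ℕ | n ∈ S ∧ (n : ℝ) ≤ X}.ncard : ℝ) ≤ (C * Real.exp (-(c₁ * Real.log X ^ (3 / 4 : ℝ)))) * X)
    {k : ℕ} (v : ℕ → Fin k → ℝ) {a s : ℝ} (ha : 0 < a) (hs : 0 < s)
    (hv : ∀ m : ℕ, 1 ≤ m → s * (m : ℝ) ^ a ≤ ‖v m‖) :
    ∀ᵐ α : Fin k → ℝ, ∃ K : ℝ, ∀ M : ℕ, 1 ≤ M →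
      ({m : ℕ | m ≤ M ∧ ∃ n ∈ S, |(n : ℝ) - ∑ j, α j * v m j| ≤
          Real.exp (c₁ / 2 * Real.log (1 + ‖v m‖) ^ (3 / 4 : ℝ))}.ncard : ℝ) ≤
        K * (M * Real.exp (-(min (c₁ / 2 * (a / 2) ^ (3 / 4 : ℝ)) 1 / 8 * Real.log M ^ (3 / 4 : ℝ)))) := by
  classical
  obtain ⟨c₃, hc₃⟩ : ∃ c₃ : ℝ, c₃ = min (c₁ / 2 * (a / 2) ^ (3 / 4 : ℝ)) 1 := ⟨_, rfl⟩
  have hc₃0 : 0 < c₃ := by rw [hc₃]; exact lt_min (by positivity) one_pos
  have hc₃1 : c₃ ≤ 1 := by rw [hc₃]; exact min_le_right _ _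
  have hc₃2 : c₃ ≤ c₁ / 2 * (a / 2) ^ (3 / 4 : ℝ) := by rw [hc₃]; exact min_le_left _ _
  rw [← hc₃]
  -- the indices for which everything is in range
  obtain ⟨m₀, hm₀⟩ : ∃ m₀ : ℕ, ∀ m : ℕ, m₀ ≤ m → (2 + c₁ / 2) ^ 4 ≤ Real.log (1 + ‖v m‖) ∧
      Real.exp (-(c₁ / 2 * Real.log (1 + ‖v m‖) ^ (3 / 4 : ℝ))) ≤ Real.exp (-(c₃ * Real.log m ^ (3 / 4 : ℝ))) := by
    have hlim : Tendsto (fun m : ℕ => Real.log m) atTop atTop := Real.tendsto_log_atTop.comp tendsto_natCast_atTop_atTop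
    obtain ⟨m₁, hm₁⟩ := eventually_atTop.1 (hlim.eventually (eventually_ge_atTop
      (max (-(2 * Real.log s) / a) (2 / a * (2 + c₁ / 2) ^ 4))))
    refine ⟨m₁ + 1, fun m hm => ?_⟩
    have h1 := hm₁ m (by omega)
    have hm1 : 1 ≤ m := by omega
    have hm0 : (0 : ℝ) < m := by exact_mod_cast hm1
    have hlm : 0 ≤ Real.log m := Real.log_natCast_nonneg m
    have h2 : -(2 * Real.log s) / a ≤ Real.log m := (le_max_left _ _).trans h1
    have h3 : 2 / a * (2 + c₁ / 2) ^ 4 ≤ Real.log m := (le_max_right _ _).trans h1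
    have h4 : -(2 * Real.log s) ≤ a * Real.log m := by
      rw [div_le_iff₀ ha] at h2
      linarith
    have h5 : (2 + c₁ / 2) ^ 4 ≤ a / 2 * Real.log m := by
      have := mul_le_mul_of_nonneg_left h3 (show 0 ≤ a / 2 by positivity)
      have e : a / 2 * (2 / a * (2 + c₁ / 2) ^ 4) = (2 + c₁ / 2) ^ 4 := by field_simp
      rwa [e] at this
    have h6 : a / 2 * Real.log m ≤ Real.log (1 + ‖v m‖) := by
      have e1 := Real.log_le_log (by positivity) ((hv m hm1).trans (by linarith : ‖v m‖ ≤ 1 + ‖v m‖))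
      rw [Real.log_mul hs.ne' (by positivity), Real.log_rpow hm0] at e1
      linarith
    refine ⟨h5.trans h6, ?_⟩
    apply Real.exp_le_exp.2
    have e1 : (a / 2) ^ (3 / 4 : ℝ) * Real.log m ^ (3 / 4 : ℝ) ≤ Real.log (1 + ‖v m‖) ^ (3 / 4 : ℝ) := by
      rw [← Real.mul_rpow (by positivity) hlm]
      exact Real.rpow_le_rpow (by positivity) h6 (by norm_num)
    have e2 : 0 ≤ Real.log m ^ (3 / 4 : ℝ) := by positivity
    have e3 : c₃ * Real.log m ^ (3 / 4 : ℝ) ≤ c₁ / 2 * (a / 2) ^ (3 / 4 : ℝ) * Real.log m ^ (3 / 4 : ℝ) :=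
      mul_le_mul_of_nonneg_right hc₃2 e2
    have e4 : c₁ / 2 * (a / 2) ^ (3 / 4 : ℝ) * Real.log m ^ (3 / 4 : ℝ) =
        c₁ / 2 * ((a / 2) ^ (3 / 4 : ℝ) * Real.log m ^ (3 / 4 : ℝ)) := by ring
    have e5 := mul_le_mul_of_nonneg_left e1 (show 0 ≤ c₁ / 2 by positivity)
    linarith
  refine of_box _ fun R => ?_
  obtain ⟨B, hB, hE⟩ := box34 (k := k) hC hc₁ hS R
  choose! E hE1 hE2 hE3 using hE
  have hmeas : ∀ m, MeasurableSet (if m₀ ≤ m then E (v m) else ∅) := by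
    intro m
    by_cases h : m₀ ≤ m
    · rw [if_pos h]
      exact hE1 _ (hm₀ m h).1
    · rw [if_neg h]
      exact MeasurableSet.empty
  have hEv : ∀ m, volume (if m₀ ≤ m then E (v m) else ∅) ≤
      ENNReal.ofReal (B * Real.exp (-(c₃ * Real.log m ^ (3 / 4 : ℝ)))) := by
    intro m
    by_cases h : m₀ ≤ m
    · rw [if_pos h]
      refine (hE2 _ (hm₀ m h).1).trans (ENNReal.ofReal_le_ofReal ?_)
      exact mul_le_mul_of_nonneg_left (hm₀ m h).2 hB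
    · rw [if_neg h, measure_empty]
      exact bot_le
  have hsum : ∀ j : ℕ, ∑ m ∈ range (2 ^ j + 1), volume (if m₀ ≤ m then E (v m) else ∅) ≤
      ENNReal.ofReal ((B * 8) * (2 ^ j * Real.exp (-(c₃ / 4 * (j : ℝ) ^ (3 / 4 : ℝ))))) := by
    intro j
    refine (Finset.sum_le_sum fun m _ => hEv m).trans ?_
    rw [← ENNReal.ofReal_sum_of_nonneg fun m _ => by positivity]
    apply ENNReal.ofReal_le_ofReal
    rw [← Finset.mul_sum]
    have h1 := sum34 hc₃0 hc₃1 j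
    calc B * ∑ m ∈ range (2 ^ j + 1), Real.exp (-(c₃ * Real.log m ^ (3 / 4 : ℝ)))
        ≤ B * (8 * (2 ^ j * Real.exp (-(c₃ / 4 * (j : ℝ) ^ (3 / 4 : ℝ))))) :=
          mul_le_mul_of_nonneg_left h1 (by positivity)
      _ = _ := by ring
  filter_upwards [markov_count volume (fun m => if m₀ ≤ m then E (v m) else ∅) hmeas (by positivity)
    (show 0 < c₃ / 4 by positivity) (by linarith) hsum] with α hα hαR
  obtain ⟨K, hK, hKM⟩ := hα
  refine ⟨K + 3 * m₀, fun M hM => ?_⟩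
  have h1 := hKM M hM
  have e8 : c₃ / 4 / 2 = c₃ / 8 := by ring
  rw [e8] at h1
  have h2 : {m : ℕ | m ≤ M ∧ ∃ n ∈ S, |(n : ℝ) - ∑ j, α (0, j) * v m j| ≤
      Real.exp (c₁ / 2 * Real.log (1 + ‖v m‖) ^ (3 / 4 : ℝ))} ⊆
      (((range (M + 1)).filter (fun m => α ∈ if m₀ ≤ m then E (v m) else ∅) ∪ range m₀ : Finset ℕ) : Set ℕ) := by
    rintro m ⟨hmM, hn⟩
    rw [Finset.mem_coe, Finset.mem_union, Finset.mem_filter, Finset.mem_range, Finset.mem_range]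
    by_cases h : m₀ ≤ m
    · refine Or.inl ⟨by omega, ?_⟩
      rw [if_pos h]
      exact hE3 _ (hm₀ m h).1 α hαR hn
    · exact Or.inr (by omega)
  have h3 := Set.ncard_le_ncard h2 (Finset.finite_toSet _)
  rw [Set.ncard_coe_finset] at h3
  have h4 := h3.trans (Finset.card_union_le _ _)
  rw [Finset.card_range] at h4
  have h5 : ({m : ℕ | m ≤ M ∧ ∃ n ∈ S, |(n : ℝ) - ∑ j, α (0, j) * v m j| ≤
      Real.exp (c₁ / 2 * Real.log (1 + ‖v m‖) ^ (3 / 4 : ℝ))}.ncard : ℝ) ≤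
      (((range (M + 1)).filter (fun m => α ∈ if m₀ ≤ m then E (v m) else ∅)).card : ℝ) + m₀ := by exact_mod_cast h4
  have h6 := low34 (c := c₃ / 8) (by positivity) (by linarith) hM
  have h7 : (m₀ : ℝ) ≤ 3 * m₀ * (M * Real.exp (-(c₃ / 8 * Real.log M ^ (3 / 4 : ℝ)))) := by
    have : (0 : ℝ) ≤ m₀ := Nat.cast_nonneg _
    nlinarith
  linarith

/-- families with a convergent sum of `1 / (1 + log (1 + ‖v i‖)) ^ A` are sparse enough -/
theorem sparse_of_slow {k : ℕ} {ι : Type} (v : ι → Fin k → ℝ) (hv : Pool.Agent.N251.LF.Slow v) (t : ℝ) (ht : 0 < t) :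
    Summable fun i => Real.exp (-(t * Real.log (1 + ‖v i‖) ^ (3 / 4 : ℝ))) := by
  obtain ⟨A, hA⟩ := hv
  obtain ⟨K₁, hK₁, h1⟩ := Pool.Agent.N375.AV.absorb A (show (0 : ℝ) < 3 / 4 by norm_num) ht
  refine Summable.of_nonneg_of_le (fun i => (Real.exp_pos _).le) (fun i => ?_) (hA.mul_left K₁)
  have h2 : 0 ≤ Real.log (1 + ‖v i‖) := Real.log_nonneg (by linarith [norm_nonneg (v i)])
  have h3 := h1 _ h2
  have h4 : 0 < (1 + Real.log (1 + ‖v i‖)) ^ A := by positivity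
  rw [Real.exp_neg, mul_one_div, le_div_iff₀ h4, inv_mul_le_iff₀ (Real.exp_pos _)]
  linarith

end Pool.Agent.V8H1.TR
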