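import Pool.Agent.N665.DA.Near
import Pool.Agent.N251.LF.Tuples
import Pool.Agent.R482.ST.Vec

/-!
# Exceptional sets of integer vectors with a power saving, multiplied and shifted by small integers, near radial starshaped
sequences and near generic systems of linear forms
-/

set_option autoImplicit false

namespace Pool.Agent.V8H1.TR

open Finset
open Pool.Agent.N665.DA (NearSet thin_near)
open Pool.Agent.R482.ST (Starshaped Conv vec_prop)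
open Pool.Agent.N251.LF (Fam tuple_windows)

theorem thin {k : ℕ} (hk : 1 ≤ k) {c : ℝ} (hc : 0 < c) : ∃ η : ℝ, 0 < η ∧ η ≤ 1 / 2 ∧ ∀ (E : Set (Fin k → ℤ)) (C : ℝ),
    (∀ T : ℕ, 1 ≤ T → (({α : Fin k → ℤ | (∀ i, |α i| ≤ (T : ℤ)) ∧ α ∈ E}.ncard : ℕ) : ℝ) ≤
      C * (T : ℝ) ^ ((k : ℝ) - c)) →
    Pool.Agent.N671.DA.Thin (NearSet E η) ((k : ℝ) - η) := by
  have hk1 : (1 : ℝ) ≤ k := by exact_mod_cast hk
  obtain ⟨c', hc'⟩ : ∃ c' : ℝ, c' = min c 1 := ⟨_, rfl⟩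
  have hc'0 : 0 < c' := by rw [hc']; exact lt_min hc one_pos
  have hc'c : c' ≤ c := by rw [hc']; exact min_le_left _ _
  have hc'1 : c' ≤ 1 := by rw [hc']; exact min_le_right _ _
  obtain ⟨η, hη⟩ : ∃ η : ℝ, η = c' / (6 * k) := ⟨_, rfl⟩
  have hη0 : 0 < η := by rw [hη]; positivity
  have hηk : 3 * k * η = c' / 2 := by rw [hη]; field_simp; norm_num
  have hη1 : η ≤ c' / 2 := by nlinarith
  refine ⟨η, hη0, by linarith, fun E C hE => ?_⟩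
  have hC : 0 ≤ C := by
    have h := hE 1 le_rfl
    have h1 : ((1 : ℕ) : ℝ) ^ ((k : ℝ) - c) = 1 := by rw [Nat.cast_one, Real.one_rpow]
    rw [h1, mul_one] at h
    exact le_trans (Nat.cast_nonneg _) h
  have hE' : ∀ T : ℕ, 1 ≤ T → (({α : Fin k → ℤ | (∀ i, |α i| ≤ (T : ℤ)) ∧ α ∈ E}.ncard : ℕ) : ℝ) ≤
      C * (T : ℝ) ^ ((k : ℝ) - c') := by
    intro T hT
    refine (hE T hT).trans (mul_le_mul_of_nonneg_left ?_ hC)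
    exact Real.rpow_le_rpow_of_exponent_le (by exact_mod_cast hT) (by linarith)
  have hT := thin_near hk hc'0 hc'1 E hE'
  rw [← hη] at hT
  intro ε hε
  obtain ⟨C₁, hC₁⟩ := hT ε hε
  refine ⟨|C₁|, fun X hX => (hC₁ X hX).trans ?_⟩
  refine (mul_le_mul_of_nonneg_right (le_abs_self _) (by positivity)).trans ?_
  exact mul_le_mul_of_nonneg_left (Real.rpow_le_rpow_of_exponent_le hX (by linarith)) (abs_nonneg _)

/-- exceptional sets and radial starshaped sequences -/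
theorem star_near {k : ℕ} (hk : 1 ≤ k) {c : ℝ} (hc : 0 < c) : ∃ η : ℝ, 0 < η ∧ ∀ (E : Set (Fin k → ℤ)) (C : ℝ),
    (∀ T : ℕ, 1 ≤ T → (({α : Fin k → ℤ | (∀ i, |α i| ≤ (T : ℤ)) ∧ α ∈ E}.ncard : ℕ) : ℝ) ≤
      C * (T : ℝ) ^ ((k : ℝ) - c)) →
    ∀ (f : ℕ → ℝ → ℝ) (a τ θ : ℝ), Starshaped a f → 0 ≤ τ → Conv a f τ → θ < 1 →
      ∃ S : Set (Fin k → ℝ), dimH S ≤ ENNReal.ofReal (((k : ℝ) - η + τ) / (1 - θ)) ∧
      ∀ u : Fin k → ℝ, a < ‖u‖ → u ∉ S → ∀ c₁ : ℝ, ∃ n₀ : ℕ, ∀ n : ℕ, n₀ ≤ n → ∀ v : Fin k → ℤ,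
        (∀ i, |(v i : ℝ) - f n ‖u‖ / ‖u‖ * u i| ≤ c₁ * (f n ‖u‖) ^ θ) →
        ∀ a b : Fin k → ℤ, (∀ i, a i ≠ 0 ∧ |(a i : ℝ)| ≤ ‖v‖ ^ η ∧ |(b i : ℝ)| ≤ ‖v‖ ^ η) →
          (fun i => a i * v i + b i) ∉ E := by
  have hk1 : (1 : ℝ) ≤ k := by exact_mod_cast hk
  obtain ⟨η, hη0, hη1, h⟩ := thin hk hc
  refine ⟨η, hη0, fun E C hE f a τ θ hf hτ hv hθ => ?_⟩
  have hT := h E C hE
  obtain ⟨S, hS, hS2⟩ := vec_prop (ι := Fin k) (fun z _ => z ∈ NearSet E η) (fun _ _ _ _ h => h) (s := (k : ℝ) - η)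
    (by linarith) (fun ε hε => by
      obtain ⟨C₁, hC₁⟩ := hT ε hε
      refine ⟨C₁, fun H hH => ?_⟩
      have h1 := hC₁ H (by exact_mod_cast hH)
      have e : {z : Fin k → ℤ | (∀ i, |z i| ≤ (H : ℤ)) ∧ z ∈ NearSet E η} =
          {q : Fin k → ℤ | q ∈ NearSet E η ∧ ∀ i, |(q i : ℝ)| ≤ (H : ℝ)} := by
        ext z
        simp only [Set.mem_ofPred_eq]
        constructor
        · rintro ⟨h2, h3⟩
          exact ⟨h3, fun i => by exact_mod_cast h2 i⟩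
        · rintro ⟨h2, h3⟩
          exact ⟨fun i => by exact_mod_cast h3 i, h2⟩
      rw [e]
      exact h1) f a τ θ hf hτ hv hθ
  refine ⟨S, hS, fun u hu huS c₁ => ?_⟩
  obtain ⟨n₀, hn⟩ := hS2 u hu huS c₁
  exact ⟨n₀, fun n hn1 v hv2 a' b' hab hE1 => hn n hn1 v hv2 ⟨a', b', hab, hE1⟩⟩

/-- exceptional sets and generic systems of linear forms at the members of a family of vectors -/
theorem linear_near {k : ℕ} (hk : 1 ≤ k) {c : ℝ} (hc : 0 < c) : ∃ η : ℝ, 0 < η ∧ ∀ (E : Set (Fin k → ℤ)) (C : ℝ),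
    (∀ T : ℕ, 1 ≤ T → (({α : Fin k → ℤ | (∀ i, |α i| ≤ (T : ℤ)) ∧ α ∈ E}.ncard : ℕ) : ℝ) ≤
      C * (T : ℝ) ^ ((k : ℝ) - c)) →
    ∀ (ι : Type) (r : ℕ) (v : ι → Fin r → ℝ) (τ θ : ℝ), Fam v τ → 0 ≤ τ → θ < 1 →
      ∃ S : Set (Fin k × Fin r → ℝ), dimH S ≤ ENNReal.ofReal ((k : ℝ) * ((r : ℝ) - 1) + ((k : ℝ) - η + τ) / (1 - θ)) ∧
      ∀ α, α ∉ S → ∀ c₁ : ℝ, {i | ¬ ∀ q : Fin k → ℤ, (∀ l, |(q l : ℝ) - ∑ j, α (l, j) * v i j| ≤ c₁ * ‖v i‖ ^ θ) →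
        ∀ a b : Fin k → ℤ, (∀ i, a i ≠ 0 ∧ |(a i : ℝ)| ≤ ‖q‖ ^ η ∧ |(b i : ℝ)| ≤ ‖q‖ ^ η) →
          (fun i => a i * q i + b i) ∉ E}.Finite := by
  have hk1 : (1 : ℝ) ≤ k := by exact_mod_cast hk
  obtain ⟨η, hη0, hη1, h⟩ := thin hk hc
  refine ⟨η, hη0, fun E C hE ι r v τ θ hv hτ hθ => ?_⟩
  have hT := h E C hE
  obtain ⟨S, hS, hS2⟩ := tuple_windows (NearSet E η) (fun q l => (q l : ℝ)) v (s := (k : ℝ) - η) (by linarith) hτ hθ hv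
    (fun ε hε => by
      obtain ⟨C₁, hC₁⟩ := hT ε hε
      exact ⟨C₁, fun X hX => ⟨(Pool.Agent.N671.DA.box_fin X).subset fun q hq => hq.2, hC₁ X hX⟩⟩)
  refine ⟨S, hS, fun α hα c₁ => (hS2 α hα c₁).subset fun i hi => ?_⟩
  simp only [Set.mem_ofPred_eq] at hi ⊢
  push Not at hi
  obtain ⟨q, hq, a, b, hab, hE1⟩ := hi
  exact ⟨q, ⟨a, b, hab, hE1⟩, hq⟩

end Pool.Agent.V8H1.TR
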